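import Pool.Agent.U207.PD.MainCovY

/-! Families of rational curves which connect two general points. -/

set_option autoImplicit false
set_option linter.overlappingInstances false
set_option linter.unusedSectionVars false

open MvPolynomial Pool.Agent.Y742.GG Pool.Agent.U207.PB Pool.Agent.U207.PD

namespace Pool.Agent.U207.RC

variable {Ω E : Type} [Field Ω] [Field E] [Algebra Ω E] {N : ℕ}

/-- The rational curve with the coordinates `a l / b`, polynomials in a parameter over `E`, is on the
hypersurface `F = 0`, and its points with the parameters `0` and `1` are a pair of general points: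
all the relations over `Ω` between their coordinates are consequences of the equation of the
hypersurface. -/
structure IsConnecting (F : MvPolynomial (Fin N) Ω) (a : Fin N → Polynomial E) (b : Polynomial E) :
    Prop where
  zero : ∀ c : E, b.eval c ≠ 0 → aeval (fun l => (a l).eval c / b.eval c) F = 0
  left : b.eval 0 ≠ 0
  right : b.eval 1 ≠ 0
  general : ∀ P : MvPolynomial (Fin N ⊕ Fin N) Ω,
    aeval (Sum.elim (fun l => (a l).eval 0 / b.eval 0) (fun l => (a l).eval 1 / b.eval 1)) P = 0 →
      P ∈ Ideal.span {rename Sum.inl F, rename Sum.inr F}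

variable [CharZero Ω] [IsAlgClosed Ω]

/-- points of hypersurfaces -/
theorem exists_pt {F : MvPolynomial (Fin N) Ω} (hF : Irreducible F) :
    ∃ v : Fin N → Ω, eval v F = 0 := by
  by_contra hcon
  push Not at hcon
  have h1 : zeroLocus Ω (Ideal.span {F}) = ∅ := by
    rw [Set.eq_empty_iff_forall_notMem]
    intro v hv
    exact hcon v (by
      have h2 := hv F (Ideal.mem_span_singleton_self F)
      rwa [aeval_eq_eval] at h2)
  have h2 := vanishingIdeal_zeroLocus_eq_radical (K := Ω) (Ideal.span {F})
  rw [h1, vanishingIdeal_empty] at h2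
  have h3 : (1 : MvPolynomial (Fin N) Ω) ∈ (Ideal.span {F}).radical := by
    rw [← h2]; trivial
  obtain ⟨n, hn⟩ := h3
  rw [one_pow, Ideal.mem_span_singleton] at hn
  exact hF.not_isUnit (isUnit_of_dvd_one hn)

variable {F : MvPolynomial (Fin N) Ω} {a : Fin N → Polynomial E} {b : Polynomial E}

/-- relations between the coordinates of the first point -/
theorem IsConnecting.dvd (h : IsConnecting F a b) {P : MvPolynomial (Fin N) Ω}
    {v : Fin N → Ω} (hv : eval v F = 0) {Q : MvPolynomial (Fin N ⊕ Fin N) Ω}
    (hQ : aeval (Sum.elim (fun l => (a l).eval 0 / b.eval 0) (fun l => (a l).eval 1 / b.eval 1)) Q =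
      0) (hQP : aeval (Sum.elim (fun l => X l) (fun l => C (v l))) Q = P) : F ∣ P := by
  have h1 := h.general Q hQ
  rw [Ideal.mem_span_pair] at h1
  obtain ⟨A, B, hAB⟩ := h1
  rw [← hQP, ← hAB, map_add, map_mul, map_mul, aeval_rename, aeval_rename, Sum.elim_comp_inl,
    Sum.elim_comp_inr]
  have h2 : aeval (fun l : Fin N => (X l : MvPolynomial (Fin N) Ω)) F = F := aeval_X_left_apply F
  have h3 : aeval (fun l : Fin N => (C (v l) : MvPolynomial (Fin N) Ω)) F = 0 := by
    have h4 := aeval_algebraMap_apply (MvPolynomial (Fin N) Ω) v F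
    rw [aeval_eq_eval, hv, map_zero] at h4
    exact h4
  rw [h2, h3, mul_zero, add_zero]
  exact Dvd.intro_left _ rfl

/-- polynomials which vanish at almost all points -/
theorem poly_zero [CharZero E] (hb : b ≠ 0) {p : Polynomial E}
    (hp : ∀ c : E, b.eval c ≠ 0 → p.eval c = 0) : p = 0 := by
  have h1 : p * b = 0 := by
    apply Polynomial.funext
    intro c
    rw [Polynomial.eval_mul, Polynomial.eval_zero]
    by_cases hc : b.eval c = 0
    · rw [hc, mul_zero]
    · rw [hp c hc, zero_mul]
  exact (mul_eq_zero.1 h1).resolve_right hb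

/-- the generic point of the rational curve -/
noncomputable def gp (a : Fin N → Polynomial E) (b : Polynomial E) (l : Fin N) :
    FractionRing (MvPolynomial (Fin 1) E) :=
  Polynomial.aeval (tf E 1 0) (a l) / Polynomial.aeval (tf E 1 0) b

theorem tf_inj : Function.Injective (Polynomial.aeval (R := E) (tf E 1 0)) := by
  have h := (basis_tf (E := E) (r := 1)).1
  have h1 := h.transcendental 0
  exact transcendental_iff_injective.1 h1

theorem alg_const [CharZero E] (hb : b ≠ 0) {s : Fin N} (hs : IsAlgebraic E (gp a b s)) :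
    ∃ c : E, a s = Polynomial.C c * b := by
  classical
  obtain ⟨f, hf0, hf⟩ := hs
  obtain ⟨q, n, hq⟩ := clearA (algebraMap E (Polynomial E)) (fun _ : Fin 1 => a s) b
    (Polynomial.aeval (X 0 : MvPolynomial (Fin 1) E) f)
  have hbT : (Polynomial.aeval (tf E 1 0) : Polynomial E →ₐ[E] _) b ≠ 0 := by
    intro h0
    exact hb (tf_inj (by rw [h0, map_zero]))
  have hev : ∀ {R : Type} [Field R] [Algebra E R] (ρ : Polynomial E →ₐ[E] R) (z : R),
      z * ρ b = ρ (a s) → Polynomial.aeval z f * ρ b ^ n = ρ q := by
    intro R _ _ ρ z hz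
    have h1 := hq (ρ : Polynomial E →+* R) (fun _ => z) (fun _ => hz)
    have h2 : eval₂ ((ρ : Polynomial E →+* R).comp (algebraMap E (Polynomial E)))
        (fun _ : Fin 1 => z) (Polynomial.aeval (X 0 : MvPolynomial (Fin 1) E) f) =
        Polynomial.aeval z f := by
      have h3 : (ρ : Polynomial E →+* R).comp (algebraMap E (Polynomial E)) = algebraMap E R :=
        ρ.comp_algebraMap
      rw [h3, ← aeval_def, ← Polynomial.aeval_algHom_apply, aeval_X]
    rw [← h2]
    exact h1
  have hq0 : q = 0 := by
    apply tf_inj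
    rw [← hev (Polynomial.aeval (tf E 1 0)) (gp a b s) (by rw [gp, div_mul_cancel₀ _ hbT]), hf,
      zero_mul, map_zero]
  have hroot : ∀ c : E, b.eval c ≠ 0 → f.eval ((a s).eval c / b.eval c) = 0 := by
    intro c hc
    have h1 := hev (Polynomial.aeval c) ((a s).eval c / b.eval c) (by
      rw [Polynomial.coe_aeval_eq_eval, div_mul_cancel₀ _ hc])
    rw [hq0, map_zero, Polynomial.coe_aeval_eq_eval] at h1
    exact (mul_eq_zero.1 h1).resolve_right (pow_ne_zero _ hc)
  have hprod : ∏ c ∈ f.roots.toFinset, (a s - Polynomial.C c * b) = 0 := by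
    apply poly_zero hb
    intro c hc
    rw [Polynomial.eval_prod]
    refine Finset.prod_eq_zero (i := (a s).eval c / b.eval c) ?_ ?_
    · rw [Multiset.mem_toFinset, Polynomial.mem_roots hf0]
      exact hroot c hc
    · rw [Polynomial.eval_sub, Polynomial.eval_mul, Polynomial.eval_C, div_mul_cancel₀ _ hc,
        sub_self]
  obtain ⟨c, -, hc⟩ := Finset.prod_eq_zero_iff.1 hprod
  exact ⟨c, sub_eq_zero.1 hc⟩

/-- the generic point of the rational curve is a generic point -/
theorem IsConnecting.gp_zero [CharZero E] (h : IsConnecting F a b) (hF : Irreducible F)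
    (P : MvPolynomial (Fin N) Ω) : aeval (gp a b) P = 0 ↔ F ∣ P := by
  classical
  have hb : b ≠ 0 := by
    rintro rfl
    exact h.left (by rw [Polynomial.eval_zero])
  have hbT : (Polynomial.aeval (tf E 1 0) : Polynomial E →ₐ[E] _) b ≠ 0 := by
    intro h0
    exact hb (tf_inj (by rw [h0, map_zero]))
  have hcl : ∀ P : MvPolynomial (Fin N) Ω, ∃ (q : Polynomial E) (n : ℕ),
      aeval (gp a b) P * (Polynomial.aeval (tf E 1 0) b) ^ n = Polynomial.aeval (tf E 1 0) q ∧
      ∀ c : E, b.eval c ≠ 0 →
        aeval (fun l => (a l).eval c / b.eval c) P * b.eval c ^ n = q.eval c := by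
    intro P
    obtain ⟨q, n, hq⟩ := clearA (algebraMap Ω (Polynomial E)) a b P
    refine ⟨q, n, ?_, fun c hc => ?_⟩
    · have h1 := hq ((Polynomial.aeval (tf E 1 0) : Polynomial E →ₐ[E]
        FractionRing (MvPolynomial (Fin 1) E)) : Polynomial E →+* _) (gp a b) (fun l => by
        change gp a b l * Polynomial.aeval (tf E 1 0) b = Polynomial.aeval (tf E 1 0) (a l)
        rw [gp, div_mul_cancel₀ _ hbT])
      have h2 : ((Polynomial.aeval (tf E 1 0) : Polynomial E →ₐ[E]
          FractionRing (MvPolynomial (Fin 1) E)) : Polynomial E →+* _).comp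
          (algebraMap Ω (Polynomial E)) = algebraMap Ω (FractionRing (MvPolynomial (Fin 1) E)) := by
        apply RingHom.ext
        intro c
        rw [RingHom.comp_apply, IsScalarTower.algebraMap_apply Ω E (Polynomial E)]
        change Polynomial.aeval (tf E 1 0) (algebraMap E (Polynomial E) (algebraMap Ω E c)) = _
        rw [AlgHom.commutes, ← IsScalarTower.algebraMap_apply]
      rw [h2, ← aeval_def] at h1
      exact h1
    · have h1 := hq (Polynomial.evalRingHom c) (fun l => (a l).eval c / b.eval c) (fun l => by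
        rw [Polynomial.coe_evalRingHom, div_mul_cancel₀ _ hc])
      have h2 : (Polynomial.evalRingHom c).comp (algebraMap Ω (Polynomial E)) =
          algebraMap Ω E := by
        apply RingHom.ext
        intro z
        rw [RingHom.comp_apply, IsScalarTower.algebraMap_apply Ω E (Polynomial E),
          Polynomial.coe_evalRingHom, Polynomial.algebraMap_apply, Polynomial.eval_C]
        rfl
      rw [h2, ← aeval_def] at h1
      exact h1
  constructor
  · intro hP
    obtain ⟨q, n, h1, h2⟩ := hcl P
    rw [hP, zero_mul] at h1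
    have hq0 : q = 0 := tf_inj (by rw [← h1, map_zero])
    have h3 := h2 0 h.left
    rw [hq0, Polynomial.eval_zero] at h3
    have h4 := (mul_eq_zero.1 h3).resolve_right (pow_ne_zero _ h.left)
    obtain ⟨v, hv⟩ := exists_pt hF
    refine h.dvd hv (Q := rename Sum.inl P) ?_ ?_
    · rw [aeval_rename, Sum.elim_comp_inl]
      exact h4
    · rw [aeval_rename, Sum.elim_comp_inl]
      exact aeval_X_left_apply P
  · rintro ⟨Q, rfl⟩
    have hF0 : aeval (gp a b) F = 0 := by
      obtain ⟨q, n, h1, h2⟩ := hcl F
      have hq0 : q = 0 := by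
        apply poly_zero hb
        intro c hc
        rw [← h2 c hc, h.zero c hc, zero_mul]
      rw [hq0, map_zero] at h1
      exact (mul_eq_zero.1 h1).resolve_right (pow_ne_zero _ hbT)
    rw [map_mul, hF0, zero_mul]

/-- coordinates which are not constant on `F = 0` are not constant on the rational curve -/
theorem IsConnecting.transcendental [CharZero E] (h : IsConnecting F a b) (hF : Irreducible F)
    {K : Type} [Field K] [Algebra Ω K] {x : Fin N → K} (hx : IsGenericPoint F x) {s : Fin N}
    (hs : Transcendental Ω (x s)) : Transcendental E (gp a b s) := by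
  intro halg
  have hb : b ≠ 0 := by
    rintro rfl
    exact h.left (by rw [Polynomial.eval_zero])
  obtain ⟨c, hc⟩ := alg_const hb halg
  obtain ⟨v, hv⟩ := exists_pt hF
  have h1 : F ∣ X s - C (v s) := by
    refine h.dvd hv (Q := X (Sum.inl s) - X (Sum.inr s)) ?_ ?_
    · rw [map_sub, aeval_X, aeval_X, Sum.elim_inl, Sum.elim_inr, hc, Polynomial.eval_mul,
        Polynomial.eval_mul, Polynomial.eval_C, Polynomial.eval_C, mul_div_cancel_right₀ _ h.left,
        mul_div_cancel_right₀ _ h.right, sub_self]
    · rw [map_sub, aeval_X, aeval_X, Sum.elim_inl, Sum.elim_inr]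
  have h2 := (hx.zero_iff _).2 h1
  rw [map_sub, aeval_X, aeval_C, sub_eq_zero] at h2
  apply hs
  rw [h2]
  exact isAlgebraic_algebraMap _

end Pool.Agent.U207.RC
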